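import Mathlib

namespace Pool.Agent.H.MP_fb4947_gt

open Finset

set_option linter.unusedSectionVars false

section defs
variable {V : Type} [Fintype V]

/-- out-degree -/
noncomputable def outdeg (G : Digraph V) (v : V) : ℕ := {w | G.Adj v w}.ncard

/-- unstable non-sink vertices -/
def fires (G : Digraph V) (c : V → ℕ) : Set V := {v | 0 < outdeg G v ∧ outdeg G v ≤ c v}

open Classical in
/-- one round of parallel firing -/
noncomputable def step (G : Digraph V) (c : V → ℕ) : V → ℕ := fun v =>
  c v - (if v ∈ fires G c then outdeg G v else 0) + {u | u ∈ fires G c ∧ G.Adj u v}.ncard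

/-- geometric realisation of the avalanche complex -/
def aval (G : Digraph V) (c : V → ℕ) : Set (V → ℝ) :=
  {x | (∀ v, 0 ≤ x v) ∧ ∑ v, x v = 1 ∧ ∃ t : ℕ, ∀ v, x v ≠ 0 → v ∈ fires G ((step G)^[t] c)}

/-- wedge of spheres inside their product, base points the first basis vectors -/
def wedge {m : ℕ} (d : Fin m → ℕ) :
    Set (∀ i, Metric.sphere (0 : EuclideanSpace ℝ (Fin (d i + 1))) 1) :=
  {z | ∀ i j, i ≠ j → (z i).1 = EuclideanSpace.single 0 1 ∨ (z j).1 = EuclideanSpace.single 0 1}

end defs

def real {W ι : Type} [Fintype W] (s : ι → Set W) : Set (W → ℝ) :=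
  {x | (∀ v, 0 ≤ x v) ∧ ∑ v, x v = 1 ∧ ∃ t, ∀ v, x v ≠ 0 → v ∈ s t}

variable {W : Type} [Fintype W] {T : ℕ} (s : Fin T → Set W)

def nx (t : ℕ) : Set W := {w | ∃ t' : Fin T, t'.val = t ∧ w ∈ s t'}

def gr : Digraph (Option (Fin T ⊕ W)) where
  Adj u v := match u, v with
    | none, _ => False
    | some _, none => True
    | some (.inr _), some _ => False
    | some (.inl t), some (.inl t') => t'.val = t.val + 1
    | some (.inl t), some (.inr w) => w ∈ nx s (t.val + 1)

omit [Fintype W] in
theorem deg_none : outdeg (gr s) none = 0 := by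
  simp [outdeg, gr]

omit [Fintype W] in
theorem deg_inr (w : W) : outdeg (gr s) (some (.inr w)) = 1 := by
  have : {v | (gr s).Adj (some (.inr w)) v} = {none} := by
    ext v
    rcases v with _ | v <;> simp [gr]
  rw [outdeg, this, Set.ncard_singleton]

theorem deg_inl (t : Fin T) : 0 < outdeg (gr s) (some (.inl t)) :=
  (Set.ncard_pos (Set.toFinite _)).2 ⟨none, by simp [gr]⟩

open Classical in
def Inv (t : ℕ) (c : Option (Fin T ⊕ W) → ℕ) : Prop :=
  (∀ t' : Fin T, c (some (.inl t')) = if t'.val < t then 0 else if t'.val = t then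
    outdeg (gr s) (some (.inl t')) else outdeg (gr s) (some (.inl t')) - 1) ∧
  ∀ w, c (some (.inr w)) = if w ∈ nx s t then 1 else 0

theorem fires_none (c) : none ∉ fires (gr s) c := by simp [fires, deg_none]

theorem fires_inl {t c} (h : Inv s t c) (t' : Fin T) :
    some (.inl t') ∈ fires (gr s) c ↔ t'.val = t := by
  have h1 := deg_inl s t'
  simp only [fires, Set.mem_setOf_eq, h.1 t']
  split_ifs <;> omega

theorem fires_inr {t c} (h : Inv s t c) (w : W) :
    some (.inr w) ∈ fires (gr s) c ↔ w ∈ nx s t := by
  simp only [fires, Set.mem_setOf_eq, h.2 w, deg_inr]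
  split_ifs with h' <;> simp [h']

theorem inv_step {t c} (h : Inv s t c) : Inv s (t + 1) (step (gr s) c) := by
  classical
  constructor
  · intro t'
    have h1 := deg_inl s t'
    have e : {u | u ∈ fires (gr s) c ∧ (gr s).Adj u (some (.inl t'))}.ncard =
        if t'.val = t + 1 then 1 else 0 := by
      split_ifs with h2
      · rw [Set.ncard_eq_one]
        refine ⟨some (.inl ⟨t, by omega⟩), ?_⟩
        ext u
        rcases u with _ | u | u
        · simp [gr]
        · rw [Set.mem_setOf_eq, fires_inl s h]
          simp only [gr, Set.mem_singleton_iff,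
            Option.some.injEq, Sum.inl.injEq, Fin.ext_iff]
          omega
        · simp [gr]
      · rw [Set.ncard_eq_zero]
        ext u
        rcases u with _ | u | u
        · simp [gr]
        · rw [Set.mem_setOf_eq, fires_inl s h]
          simp only [gr, Set.mem_empty_iff_false, iff_false]
          omega
        · simp [gr]
    simp only [step, e, fires_inl s h, h.1 t']
    split_ifs <;> omega
  · intro w
    have e : {u | u ∈ fires (gr s) c ∧ (gr s).Adj u (some (.inr w))}.ncard =
        if w ∈ nx s (t + 1) then 1 else 0 := by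
      split_ifs with h2
      · rw [Set.ncard_eq_one]
        obtain ⟨t', ht', -⟩ := id h2
        refine ⟨some (.inl ⟨t, by omega⟩), ?_⟩
        ext u
        rcases u with _ | u | u
        · simp [gr]
        · rw [Set.mem_setOf_eq, fires_inl s h]
          simp only [gr, Set.mem_singleton_iff,
            Option.some.injEq, Sum.inl.injEq, Fin.ext_iff]
          constructor
          · exact fun h => h.1
          · intro h
            exact ⟨h, h ▸ h2⟩
        · simp [gr]
      · rw [Set.ncard_eq_zero]
        ext u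
        rcases u with _ | u | u
        · simp [gr]
        · rw [Set.mem_setOf_eq, fires_inl s h]
          simp only [gr, Set.mem_empty_iff_false]
          constructor
          · rintro ⟨h3, h4⟩
            exact h2 (h3 ▸ h4)
          · exact False.elim
        · simp [gr]
    simp only [step, e, fires_inr s h, h.2 w, deg_inr]
    split_ifs <;> omega

open Classical in
noncomputable def c0 : Option (Fin T ⊕ W) → ℕ
  | none => 0
  | some (.inl t) => if t.val = 0 then outdeg (gr s) (some (.inl t)) else
      outdeg (gr s) (some (.inl t)) - 1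
  | some (.inr w) => if w ∈ nx s 0 then 1 else 0

theorem inv_iter (t : ℕ) : Inv s t ((step (gr s))^[t] (c0 s)) := by
  induction t with
  | zero => exact ⟨fun t => by simp [c0], fun w => by simp [c0]⟩
  | succ t ih => rw [Function.iterate_succ_apply']; exact inv_step s ih

def cone (t : Fin T) : Set (Option (Fin T ⊕ W)) :=
  {v | v = some (.inl t) ∨ ∃ w ∈ s t, v = some (.inr w)}

theorem aval_eq : aval (gr s) (c0 s) = real (cone s) := by
  ext x
  refine and_congr_right fun _ => and_congr_right fun h1 => ⟨?_, ?_⟩
  · rintro ⟨t, ht⟩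
    have hi := inv_iter s t
    have hT : t < T := by
      by_contra hT
      have : ∀ v, x v = 0 := by
        intro v
        by_contra hv
        have := ht v hv
        rcases v with _ | v | v
        · exact fires_none s _ this
        · have := (fires_inl s hi v).1 this
          omega
        · obtain ⟨t', h, -⟩ := (fires_inr s hi v).1 this
          omega
      simp [this] at h1
    refine ⟨⟨t, hT⟩, fun v hv => ?_⟩
    have := ht v hv
    rcases v with _ | v | v
    · exact (fires_none s _ this).elim
    · left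
      have := (fires_inl s hi v).1 this
      simp [Fin.ext_iff, this]
    · obtain ⟨t', h, hw⟩ := (fires_inr s hi v).1 this
      right
      refine ⟨v, ?_, rfl⟩
      have : t' = ⟨t, hT⟩ := Fin.ext h
      exact this ▸ hw
  · rintro ⟨t, ht⟩
    refine ⟨t, fun v hv => ?_⟩
    have hi := inv_iter s t
    rcases ht v hv with rfl | ⟨w, hw, rfl⟩
    · exact (fires_inl s hi t).2 rfl
    · exact (fires_inr s hi w).2 ⟨t, rfl, hw⟩

omit [Fintype W] in
theorem gr_irrefl (v) : ¬ (gr s).Adj v v := by
  rcases v with _ | v | v <;> simp [gr]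

omit [Fintype W] in
theorem gr_conn : (SimpleGraph.fromRel (gr s).Adj).Connected := by
  have : ∀ v, (SimpleGraph.fromRel (gr s).Adj).Reachable v none := by
    rintro (_ | v)
    · rfl
    · exact SimpleGraph.Adj.reachable (by simp [gr])
  exact ⟨fun u v => (this u).trans (this v).symm⟩

def inc (x : W → ℝ) : Option (Fin T ⊕ W) → ℝ
  | none => 0
  | some (.inl _) => 0
  | some (.inr w) => x w

open Classical in
noncomputable def ret (p : Fin T → W) (x : Option (Fin T ⊕ W) → ℝ) (w : W) : ℝ :=
  x (some (.inr w)) + ∑ t, if p t = w then x (some (.inl t)) else 0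

theorem inc_mem {x} (h : x ∈ real s) : inc x ∈ real (cone s) := by
  obtain ⟨h0, h1, t, ht⟩ := h
  refine ⟨?_, ?_, t, ?_⟩
  · rintro (_ | v | v)
    exacts [le_rfl, le_rfl, h0 v]
  · simp [Fintype.sum_option, Fintype.sum_sum_type, inc, h1]
  · rintro (_ | v | v) hv
    exacts [(hv rfl).elim, (hv rfl).elim, Or.inr ⟨v, ht v hv, rfl⟩]

theorem ret_supp {p : Fin T → W} (hp : ∀ t, p t ∈ s t) {x : Option (Fin T ⊕ W) → ℝ} {t}
    (ht : ∀ v, x v ≠ 0 → v ∈ cone s t) (w : W) (hw : ret p x w ≠ 0) : w ∈ s t := by
  by_contra hn
  apply hw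
  have h1 : x (some (.inr w)) = 0 := by
    by_contra h
    rcases ht _ h with h | ⟨w', hw', h⟩
    · simp at h
    · simp only [Option.some.injEq, Sum.inr.injEq] at h
      exact hn (h ▸ hw')
  rw [ret, h1, zero_add]
  refine Finset.sum_eq_zero fun t' _ => ?_
  split_ifs with h2
  · by_contra h
    rcases ht _ h with h | ⟨w', hw', h⟩
    · simp only [Option.some.injEq, Sum.inl.injEq] at h
      exact hn (h2 ▸ h ▸ hp t')
    · simp at h
  · rfl

theorem ret_mem {p : Fin T → W} (hp : ∀ t, p t ∈ s t) {x} (h : x ∈ real (cone s)) :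
    ret p x ∈ real s := by
  classical
  obtain ⟨h0, h1, t, ht⟩ := h
  refine ⟨fun w => add_nonneg (h0 _) (sum_nonneg fun t _ => ?_), ?_, t, ret_supp s hp ht⟩
  · split_ifs
    exacts [h0 _, le_rfl]
  · have : x none = 0 := by
      by_contra h
      rcases ht _ h with h | ⟨w', hw', h⟩ <;> simp at h
    rw [Fintype.sum_option, Fintype.sum_sum_type, this] at h1
    simp only [ret, sum_add_distrib]
    rw [sum_comm]
    simp only [sum_ite_eq, mem_univ, if_true]
    linarith

theorem cont_inc : Continuous (inc : (W → ℝ) → Option (Fin T ⊕ W) → ℝ) := by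
  refine continuous_pi ?_
  rintro (_ | v | v)
  exacts [continuous_const, continuous_const, continuous_apply v]

theorem cont_ret (p : Fin T → W) : Continuous (ret p) := by
  refine continuous_pi fun w => (continuous_apply _).add (continuous_finsetSum _ fun t _ => ?_)
  split_ifs
  exacts [continuous_apply _, continuous_const]

theorem line_mem {p : Fin T → W} (hp : ∀ t, p t ∈ s t) {x} (h : x ∈ real (cone s)) {a : ℝ}
    (a0 : 0 ≤ a) (a1 : a ≤ 1) : (1 - a) • inc (ret p x) + a • x ∈ real (cone s) := by
  have h' := inc_mem s (ret_mem s hp h)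
  obtain ⟨h0, h1, t, ht⟩ := h
  refine ⟨fun v => add_nonneg (mul_nonneg (sub_nonneg.2 a1) (h'.1 v)) (mul_nonneg a0 (h0 v)), ?_,
    t, fun v hv => ?_⟩
  · simp only [Pi.add_apply, Pi.smul_apply, smul_eq_mul, sum_add_distrib, ← mul_sum, h1, h'.2.1]
    ring
  · by_cases h2 : x v = 0
    · have : inc (ret p x) v ≠ 0 := by
        intro h3
        simp [h2, h3] at hv
      rcases v with _ | v | v
      exacts [(this rfl).elim, (this rfl).elim, Or.inr ⟨v, ret_supp s hp ht v this, rfl⟩]
    · exact ht v h2

theorem homot_of_eq {X Y : Type} [TopologicalSpace X] [TopologicalSpace Y] {f g : C(X, Y)}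
    (h : f = g) : f.Homotopic g := h ▸ ContinuousMap.Homotopic.refl f

noncomputable def coneEquiv {p : Fin T → W} (hp : ∀ t, p t ∈ s t) :
    ContinuousMap.HomotopyEquiv (real (cone s)) (real s) where
  toFun := ⟨fun x => ⟨ret p x, ret_mem s hp x.2⟩,
    ((cont_ret p).comp continuous_subtype_val).subtype_mk _⟩
  invFun := ⟨fun x => ⟨inc x, inc_mem s x.2⟩,
    (cont_inc.comp continuous_subtype_val).subtype_mk _⟩
  left_inv := ⟨{
    toFun := fun q => ⟨(1 - (q.1 : ℝ)) • inc (ret p q.2.1) + (q.1 : ℝ) • q.2.1,
      line_mem s hp q.2.2 q.1.2.1 q.1.2.2⟩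
    continuous_toFun := by
      have := cont_inc (W := W) (T := T)
      have := cont_ret p
      fun_prop
    map_zero_left := fun x => Subtype.ext (by simp)
    map_one_left := fun x => Subtype.ext (by simp) }⟩
  right_inv := by
    have : ∀ x : W → ℝ, ret p (inc x) = x := by
      intro x
      funext w
      simp [ret, inc]
    refine homot_of_eq ?_
    ext x w
    exact congrFun (this x.1) w

end Pool.Agent.H.MP_fb4947_gt
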