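import Pool.Agent.H.MP_fb4947_gt.A

namespace Pool.Agent.H.MP_fb4947_gt

open Finset

variable {m : ℕ} (d : Fin m → ℕ)

abbrev Vx := Option (Σ i : Fin m, Fin (d i + 1) × Bool)

abbrev Fc := Option (Σ i : Fin m, Fin (d i + 1) → Bool)

def fac : Fc d → Set (Vx d)
  | none => {none}
  | some ⟨i, ε⟩ => {v | (v = none ∧ ε 0 = true) ∨
      ∃ j, ¬ (j = 0 ∧ ε j = true) ∧ v = some ⟨i, (j, ε j)⟩}

theorem fac_ne (τ : Fc d) : (fac d τ).Nonempty := by
  rcases τ with _ | ⟨i, ε⟩
  · exact ⟨none, rfl⟩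
  · by_cases h : ε 0 = true
    · exact ⟨none, Or.inl ⟨rfl, h⟩⟩
    · exact ⟨_, Or.inr ⟨0, fun h' => h h'.2, rfl⟩⟩

variable {d}

structure Good (x : Vx d → ℝ) : Prop where
  nn : ∀ v, 0 ≤ x v
  sm : ∑ v, x v = 1
  z0 : ∀ i, x (some ⟨i, (0, true)⟩) = 0
  pm : ∀ i j, x (some ⟨i, (j, true)⟩) = 0 ∨ x (some ⟨i, (j, false)⟩) = 0
  bs : ∀ i, x none = 0 ∨ x (some ⟨i, (0, false)⟩) = 0
  df : ∀ i i', i ≠ i' → (∀ q, x (some ⟨i, q⟩) = 0) ∨ ∀ q, x (some ⟨i', q⟩) = 0

theorem supp_some {x : Vx d → ℝ} {τ} (ht : ∀ v, x v ≠ 0 → v ∈ fac d τ) {i j b}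
    (h : x (some ⟨i, (j, b)⟩) ≠ 0) : ∃ ε, τ = some ⟨i, ε⟩ ∧ ε j = b ∧ ¬ (j = 0 ∧ b = true) := by
  have := ht _ h
  rcases τ with _ | ⟨i', ε⟩
  · simp [fac] at this
  · rcases this with h | ⟨j', h1, h2⟩
    · simp at h
    · simp only [Option.some.injEq] at h2
      obtain ⟨rfl, h3⟩ := Sigma.mk.inj_iff.1 h2
      obtain ⟨rfl, rfl⟩ := Prod.mk.inj (eq_of_heq h3)
      exact ⟨ε, rfl, rfl, h1⟩

theorem good_iff (x : Vx d → ℝ) : x ∈ real (fac d) ↔ Good x := by
  classical
  constructor
  · rintro ⟨h0, h1, τ, ht⟩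
    refine ⟨h0, h1, fun i => ?_, fun i j => ?_, fun i => ?_, fun i i' hi => ?_⟩
    · by_contra h
      obtain ⟨ε, -, -, h⟩ := supp_some ht h
      exact h ⟨rfl, rfl⟩
    · by_contra h
      push Not at h
      obtain ⟨ε, e1, h1, -⟩ := supp_some ht h.1
      obtain ⟨ε', e2, h2, -⟩ := supp_some ht h.2
      rw [e1] at e2
      simp only [Option.some.injEq, Sigma.mk.injEq, heq_eq_eq, true_and] at e2
      subst e2
      simp [h1] at h2
    · by_contra h
      push Not at h
      obtain ⟨ε, rfl, h1, -⟩ := supp_some ht h.2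
      rcases ht _ h.1 with h | ⟨j, -, h⟩
      · simp [h1] at h
      · simp at h
    · by_contra h
      push Not at h
      obtain ⟨⟨⟨j, b⟩, h1⟩, ⟨⟨j', b'⟩, h2⟩⟩ := h
      obtain ⟨ε, e1, -⟩ := supp_some ht h1
      obtain ⟨ε', e2, -⟩ := supp_some ht h2
      rw [e1] at e2
      simp only [Option.some.injEq, Sigma.mk.injEq] at e2
      exact hi e2.1
  · intro h
    refine ⟨h.nn, h.sm, ?_⟩
    by_cases h0 : ∀ i q, x (some ⟨i, q⟩) = 0
    · refine ⟨none, ?_⟩
      rintro (_ | ⟨i, q⟩) hv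
      exacts [rfl, (hv (h0 i q)).elim]
    · push Not at h0
      obtain ⟨i, q, hq⟩ := h0
      refine ⟨some ⟨i, fun j => decide (x (some ⟨i, (j, false)⟩) = 0)⟩, ?_⟩
      rintro (_ | ⟨i', j, b⟩) hv
      · exact Or.inl ⟨rfl, by simpa using (h.bs i).resolve_left hv⟩
      · obtain rfl : i = i' := by
          by_contra hi
          rcases h.df i i' hi with h | h
          exacts [hq (h _), hv (h _)]
        right
        cases b
        · exact ⟨j, by simp [hv], by simp [hv]⟩
        · have h1 := (h.pm i j).resolve_left hv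
          refine ⟨j, ?_, by simp [h1]⟩
          rintro ⟨rfl, -⟩
          exact hv (h.z0 i)

def blk (x : Vx d → ℝ) (i : Fin m) : ℝ :=
  ∑ j, (x (some ⟨i, (j, true)⟩) + x (some ⟨i, (j, false)⟩))

theorem sum_eq (x : Vx d → ℝ) : ∑ v, x v = x none + ∑ i, blk x i := by
  simp [Fintype.sum_option, Fintype.sum_sigma, Fintype.sum_prod_type, blk]

def yv (x : Vx d → ℝ) (i : Fin m) (j : Fin (d i + 1)) : ℝ :=
  (if j = 0 then 1 - blk x i else 0) + x (some ⟨i, (j, true)⟩) - x (some ⟨i, (j, false)⟩)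

theorem Good.blk_nn {x : Vx d → ℝ} (h : Good x) (i) : 0 ≤ blk x i :=
  sum_nonneg fun _ _ => add_nonneg (h.nn _) (h.nn _)

theorem Good.rest {x : Vx d → ℝ} (h : Good x) (i) :
    1 - blk x i = x none + ∑ i' ∈ univ.erase i, blk x i' := by
  have := h.sm
  rw [sum_eq, ← add_sum_erase _ _ (mem_univ i)] at this
  linarith

theorem Good.parts {x : Vx d → ℝ} (h : Good x) (i j) :
    max (yv x i j) 0 = (if j = 0 then 1 - blk x i else 0) + x (some ⟨i, (j, true)⟩) ∧
    max (-yv x i j) 0 = x (some ⟨i, (j, false)⟩) := by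
  have a0 : 0 ≤ (if j = 0 then 1 - blk x i else 0) + x (some ⟨i, (j, true)⟩) := by
    refine add_nonneg ?_ (h.nn _)
    split_ifs
    · rw [h.rest]
      exact add_nonneg (h.nn _) (sum_nonneg fun _ _ => h.blk_nn _)
    · rfl
  have b0 := h.nn (some ⟨i, (j, false)⟩)
  have ab : (if j = 0 then 1 - blk x i else 0) + x (some ⟨i, (j, true)⟩) = 0 ∨
      x (some ⟨i, (j, false)⟩) = 0 := by
    by_contra hn
    push Not at hn
    apply hn.1
    rw [(h.pm i j).resolve_right hn.2, add_zero]
    split_ifs with hj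
    · subst hj
      rw [h.rest, (h.bs i).resolve_right hn.2, zero_add]
      refine sum_eq_zero fun i' hi' => ?_
      rcases h.df i' i (ne_of_mem_erase hi') with h1 | h1
      · simp [blk, h1]
      · exact (hn.2 (h1 _)).elim
    · rfl
  unfold yv
  rcases ab with ab | ab
  · rw [ab]
    simpa using b0
  · rw [ab, sub_zero]
    exact ⟨max_eq_left a0, max_eq_right (neg_nonpos.2 a0)⟩

theorem abs_parts (y : ℝ) : |y| = max y 0 + max (-y) 0 := by
  rcases le_total 0 y with h | h
  · simp [abs_of_nonneg, h]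
  · simp [abs_of_nonpos, h]

theorem sub_parts (y : ℝ) : max y 0 - max (-y) 0 = y := by
  rcases le_total 0 y with h | h <;> simp [h]

theorem Good.n1 {x : Vx d → ℝ} (h : Good x) (i) : ∑ j, |yv x i j| = 1 := by
  simp only [abs_parts, (h.parts i _).1, (h.parts i _).2, add_assoc, sum_add_distrib,
    sum_ite_eq', mem_univ, if_true]
  simp only [blk, sum_add_distrib]
  ring

noncomputable def ye (x : Vx d → ℝ) (i : Fin m) : EuclideanSpace ℝ (Fin (d i + 1)) :=
  WithLp.toLp 2 (yv x i)

theorem Good.ye_ne {x : Vx d → ℝ} (h : Good x) (i) : ‖ye x i‖ ≠ 0 := by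
  intro h0
  have h1 : yv x i = 0 := by
    have := norm_eq_zero.1 h0
    simpa [ye] using this
  have := h.n1 i
  simp [h1] at this

noncomputable def fw (x : real (fac d)) : wedge d :=
  ⟨fun i => ⟨‖ye x.1 i‖⁻¹ • ye x.1 i, by
    have := ((good_iff _).1 x.2).ye_ne i
    simp [norm_smul, this]⟩, by
    have h := (good_iff _).1 x.2
    have key : ∀ i, (∀ q, x.1 (some ⟨i, q⟩) = 0) →
        ‖ye x.1 i‖⁻¹ • ye x.1 i = EuclideanSpace.single 0 1 := by
      intro i hi
      have : ye x.1 i = EuclideanSpace.single 0 1 := by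
        ext j
        simp [ye, yv, blk, hi]
      rw [this]
      simp
    intro i j hij
    exact (h.df i j hij).imp (key i) (key j)⟩

theorem cont_fw : Continuous (fw (d := d)) := by
  refine Continuous.subtype_mk (continuous_pi fun i => Continuous.subtype_mk ?_ _) _
  have : Continuous fun x : real (fac d) => ye x.1 i := by
    refine (PiLp.continuous_toLp 2 _).comp (continuous_pi fun j => ?_)
    have hc : ∀ v, Continuous fun x : real (fac d) => x.1 v :=
      fun v => (continuous_apply v).comp continuous_subtype_val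
    refine Continuous.sub (Continuous.add ?_ (hc _)) (hc _)
    split_ifs
    · exact continuous_const.sub (continuous_finsetSum _ fun j _ => (hc _).add (hc _))
    · exact continuous_const
  exact (this.norm.inv₀ fun x => ((good_iff _).1 x.2).ye_ne i).smul this

noncomputable def l1 {k : ℕ} (z : EuclideanSpace ℝ (Fin k)) : ℝ := ∑ j, |z j|

theorem l1_pos {k : ℕ} {z : EuclideanSpace ℝ (Fin k)} (h : ‖z‖ = 1) : 0 < l1 z := by
  refine lt_of_le_of_ne (sum_nonneg fun _ _ => abs_nonneg _) fun h0 => ?_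
  have := (sum_eq_zero_iff_of_nonneg fun _ _ => abs_nonneg _).1 h0.symm
  have : z = 0 := by
    ext j
    simpa using this j (mem_univ _)
  simp [this] at h

noncomputable def gs (z : ∀ i, Metric.sphere (0 : EuclideanSpace ℝ (Fin (d i + 1))) 1)
    (i : Fin m) : Fin (d i + 1) × Bool → ℝ
  | (j, true) => if j = 0 then 0 else max ((z i).1 j / l1 (z i).1) 0
  | (j, false) => max (-((z i).1 j / l1 (z i).1)) 0

noncomputable def gv (z : ∀ i, Metric.sphere (0 : EuclideanSpace ℝ (Fin (d i + 1))) 1) :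
    Vx d → ℝ
  | none => 1 - ∑ i, ∑ j, (gs z i (j, true) + gs z i (j, false))
  | some ⟨i, q⟩ => gs z i q

theorem blk_gv (z : ∀ i, Metric.sphere (0 : EuclideanSpace ℝ (Fin (d i + 1))) 1) (i) :
    blk (gv z) i = 1 - max ((z i).1 0 / l1 (z i).1) 0 := by
  have h0 := l1_pos (norm_eq_of_mem_sphere (z i))
  have h1 : ∑ j, |(z i).1 j / l1 (z i).1| = 1 := by
    simp only [abs_div, abs_of_pos h0, ← sum_div]
    exact div_self h0.ne'
  simp only [abs_parts, Fin.sum_univ_succ] at h1
  simp only [blk, gv, gs, Fin.sum_univ_succ, if_true, Fin.succ_ne_zero, if_false]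
  linarith

theorem gs_base (z : ∀ i, Metric.sphere (0 : EuclideanSpace ℝ (Fin (d i + 1))) 1) (i)
    (h : (z i).1 = EuclideanSpace.single 0 1) (q) : gs z i q = 0 := by
  have h0 := l1_pos (norm_eq_of_mem_sphere (z i))
  obtain ⟨j, b⟩ := q
  cases b
  · simp only [gs, max_eq_right_iff, Left.neg_nonpos_iff]
    refine div_nonneg ?_ h0.le
    rw [h]
    simp only [PiLp.single_apply]
    split_ifs <;> norm_num
  · simp only [gs]
    split_ifs with hj
    · rfl
    · rw [h]
      simp [hj]

theorem gv_none {z} (hz : z ∈ wedge d) (i) (h : (z i).1 ≠ EuclideanSpace.single 0 1) :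
    gv z none = max ((z i).1 0 / l1 (z i).1) 0 := by
  have : gv z none = 1 - ∑ i, blk (gv z) i := rfl
  rw [this, sum_eq_single i, blk_gv]
  · ring
  · intro i' _ hi
    have := gs_base z i' ((hz i' i hi).resolve_right h)
    simp [blk, gv, this]
  · simp

theorem gv_good {z} (hz : z ∈ wedge d) : Good (gv z) := by
  refine ⟨?_, ?_, fun i => by simp [gv, gs], fun i j => ?_, fun i => ?_, fun i i' hi => ?_⟩
  · rintro (_ | ⟨i, j, b⟩)
    · by_cases h : ∀ i, (z i).1 = EuclideanSpace.single 0 1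
      · simp [gv, gs_base z _ (h _)]
      · push Not at h
        obtain ⟨i, hi⟩ := h
        rw [gv_none hz i hi]
        exact le_max_right _ _
    · cases b
      · exact le_max_right _ _
      · simp only [gv, gs]
        split_ifs
        exacts [le_rfl, le_max_right _ _]
  · rw [sum_eq]
    have : gv z none = 1 - ∑ i, blk (gv z) i := rfl
    rw [this]
    ring
  · simp only [gv, gs]
    rcases le_total 0 ((z i).1 j / l1 (z i).1) with h | h
    · right; simpa using h
    · left; simp [h]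
  · by_cases h : (z i).1 = EuclideanSpace.single 0 1
    · exact Or.inr (gs_base z i h (0, false))
    · rw [gv_none hz i h]
      simp only [gv, gs]
      rcases le_total 0 ((z i).1 0 / l1 (z i).1) with h | h
      · right; simpa using h
      · left; simp [h]
  · exact (hz i i' hi).imp (gs_base z i) (gs_base z i')

noncomputable def gw (z : wedge d) : real (fac d) := ⟨gv z.1, (good_iff _).2 (gv_good z.2)⟩

theorem cont_gw : Continuous (gw (d := d)) := by
  have h1 : ∀ i j, Continuous fun z : wedge d => (z.1 i).1 j / l1 (z.1 i).1 := by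
    intro i j
    have hc : ∀ j, Continuous fun z : wedge d => (z.1 i).1 j := fun j =>
      (EuclideanSpace.proj j : EuclideanSpace ℝ (Fin (d i + 1)) →L[ℝ] ℝ).continuous.comp
        (continuous_subtype_val.comp ((continuous_apply i).comp continuous_subtype_val))
    exact (hc j).div (continuous_finsetSum _ fun j _ => (hc j).abs)
      fun z => (l1_pos (norm_eq_of_mem_sphere (z.1 i))).ne'
  have h2 : ∀ i q, Continuous fun z : wedge d => gs z.1 i q := by
    rintro i ⟨j, b⟩
    cases b
    · exact (h1 i j).neg.max continuous_const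
    · simp only [gs]
      split_ifs
      exacts [continuous_const, (h1 i j).max continuous_const]
  have h3 : Continuous fun z : wedge d => gv z.1 := ?_
  · exact h3.subtype_mk _
  refine continuous_pi ?_
  rintro (_ | ⟨i, q⟩)
  · exact continuous_const.sub (continuous_finsetSum _ fun i _ => continuous_finsetSum _
      fun j _ => (h2 i _).add (h2 i _))
  · exact h2 i q

theorem fw_gw (z : wedge d) : fw (gw z) = z := by
  refine Subtype.ext (funext fun i => Subtype.ext ?_)
  have h0 := l1_pos (norm_eq_of_mem_sphere (z.1 i))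
  have : ye (gv z.1) i = (l1 (z.1 i).1)⁻¹ • (z.1 i).1 := by
    ext j
    simp only [ye, yv, blk_gv, PiLp.smul_apply, smul_eq_mul, ← div_eq_inv_mul]
    simp only [gv, gs]
    split_ifs with hj
    · subst hj
      linarith [sub_parts ((z.1 i).1 0 / l1 (z.1 i).1)]
    · linarith [sub_parts ((z.1 i).1 j / l1 (z.1 i).1)]
  change ‖ye (gv z.1) i‖⁻¹ • ye (gv z.1) i = _
  rw [this, norm_smul, norm_eq_of_mem_sphere, Real.norm_eq_abs, abs_of_pos (inv_pos.2 h0),
    smul_smul]
  simp [h0.ne']

theorem gw_fw (x : real (fac d)) : gw (fw x) = x := by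
  have h := (good_iff _).1 x.2
  have h1 : ∀ i j, ((fw x).1 i).1 j / l1 ((fw x).1 i).1 = yv x.1 i j := by
    intro i j
    have h0 := h.ye_ne i
    have e : ∀ j, ((fw x).1 i).1 j = ‖ye x.1 i‖⁻¹ * yv x.1 i j := fun j => rfl
    simp only [l1, e, abs_mul, ← mul_sum, h.n1, abs_inv, abs_norm]
    field_simp
  have h2 : ∀ i q, gs (fw x).1 i q = x.1 (some ⟨i, q⟩) := by
    rintro i ⟨j, b⟩
    cases b
    · simp only [gs, h1, (h.parts i j).2]
    · simp only [gs, h1, (h.parts i j).1]
      split_ifs with hj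
      · rw [hj, h.z0]
      · rw [zero_add]
  refine Subtype.ext (funext ?_)
  rintro (_ | ⟨i, q⟩)
  · have := h.sm
    rw [sum_eq] at this
    change 1 - ∑ i, ∑ j, (gs (fw x).1 i (j, true) + gs (fw x).1 i (j, false)) = _
    simp only [h2]
    simp only [blk] at this
    linarith
  · exact h2 i q

noncomputable def wedgeHomeo : real (fac d) ≃ₜ wedge d where
  toFun := fw
  invFun := gw
  left_inv := gw_fw
  right_inv := fw_gw
  continuous_toFun := cont_fw
  continuous_invFun := cont_gw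

theorem main (d : Fin m → ℕ) : ∃ (V : Type) (_ : Fintype V) (G : Digraph V) (c : V → ℕ),
    (∀ v, ¬ G.Adj v v) ∧ (SimpleGraph.fromRel G.Adj).Connected ∧
    Nonempty (ContinuousMap.HomotopyEquiv (aval G c) (wedge d)) := by
  classical
  let e := (Fintype.equivFin (Fc d)).symm
  let s : Fin (Fintype.card (Fc d)) → Set (Vx d) := fun t => fac d (e t)
  choose p hp using fun t => fac_ne d (e t)
  have e1 : real s = real (fac d) := by
    ext x
    refine and_congr_right fun _ => and_congr_right fun _ => ⟨?_, ?_⟩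
    · rintro ⟨t, ht⟩
      exact ⟨e t, ht⟩
    · rintro ⟨t, ht⟩
      exact ⟨e.symm t, by simpa [s] using ht⟩
  refine ⟨_, inferInstance, gr s, c0 s, gr_irrefl s, gr_conn s, ⟨?_⟩⟩
  exact ((Homeomorph.setCongr (aval_eq s)).toHomotopyEquiv.trans (coneEquiv s hp)).trans
    ((Homeomorph.setCongr e1).trans wedgeHomeo).toHomotopyEquiv

end Pool.Agent.H.MP_fb4947_gt
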